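import Pool.Agent.W2helper62.RF.Base

/-!
# The Ramanujan conjecture over function fields from one place with half-integral exponents

Notation as in `Pool.Agent.W2helper62.RF.Base`: `π` is a unitary cuspidal representation of a
reductive group `G` over a global function field, `r` a representation of dimension `n` of the L-group,
`α_{1,v}, ..., α_{n,v}` are the eigenvalues of the Satake parameter of `π_v` in `r`, for the places
`v` outside of a finite set `S`, `σ` is the Galois representation attached to `π` by V. Lafforgue and
`τ_i |·| ^ (-c_i)` are the constituents of `r ∘ σ`. No functoriality is assumed.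

Let `u` be ANY place (in `S` or not). The exponents of `π_u` in `r` are the real numbers `x` such that
some eigenvalue of Frobenius in the semisimple local parameter `r ∘ σ_u` has the absolute value
`q_u ^ x`. By the compatibility with the semisimple local Langlands correspondence (Genestier and
V. Lafforgue) they can be read off from `π_u`; they are all 0 if `π_u` is unramified and tempered,
and those of the principal `SL_2` (integers or half-integers) for a Steinberg representation. For
the constituents `τ_i` they are in `(1/2)ℤ` because the `τ_{i,u}` are tempered (L. Lafforgue).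

Theorem: if the exponents of `π_u` in `r` are half-integers for one place `u`, and

* one highly ramified twist `L(s, π × χ, r)` has no zeros in `Re s ≥ 1`, or
* `L(s, π, r ⊗ r^∨)` is holomorphic in `Re s > σ` for some `σ < 2`,

then `|α_{j,v}| = 1` for all `j` and all `v` outside of `S`: the Ramanujan conjecture holds for `π` at
these places.

The first condition is known for globally generic `π` and the pairs `(G, r)` of the
Langlands-Shahidi method, for instance the split adjoint groups of type `E_6` and `E_7`, with `r` of
dimension 27 and 56. For these the theorem gives the Ramanujan conjecture at all unramified places for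
all globally generic `π` with half-integral exponents at one place `u`, for instance with one
unramified tempered component. Ciubotaru and Harris obtain this for tempered `π_u` under a
restriction on the residue field of a second place (from the classification of unitary spherical
representations, which is not used here); here half-integral exponents at `u` suffice, `π_u` need
not be tempered.
-/

set_option autoImplicit false

namespace Pool.Agent.Results.MP_eadad4_nt.HalfIntegralPlace

open Polynomial Filter Topology Pool.Agent.W2helper62.RF

/-- Known facts at one place `u`, in `S` or not: the multiset `e i` of the exponents of the local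
component at `u` of the constituent `τ_i` (`q_u ^ x`, `x ∈ e i`, are the absolute values of the
eigenvalues of Frobenius in the semisimple local parameter), which are half-integers as the
component is tempered, and the multiset `E` of the exponents of `π_u` in `r`, which are those of the
`τ_i |·| ^ (-c_i)`. -/
structure LocalExponents {q : ℝ} {P : Type} {deg : P → ℕ} {G : CuspidalGL q P deg} {n : ℕ}
    (π : Parameters G n) where
  e : Fin π.k → Multiset ℝ
  card_e : ∀ i, (e i).card = G.dim (π.τ i)
  half : ∀ i, ∀ x ∈ e i, ∃ m : ℤ, x = m / 2
  E : Multiset ℝ
  decomp : E = ∑ i, (e i).map fun x => x + π.c i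

/-- **One place with half-integral exponents.** -/
theorem result {P : Type} {q : ℝ} (hq : 1 < q) [Nonempty P] (deg : P → ℕ) (hdeg : ∀ v, 0 < deg v)
    (G : CuspidalGL q P deg) {n : ℕ} (hn : 0 < n) (π : Parameters G n) (U : LocalExponents π)
    (hU : ∀ x ∈ U.E, ∃ m : ℤ, x = m / 2)
    (h : (∃ χ, HighlyRamified π χ ∧ NoZerosFrom q deg (pair π.A (G.satake χ)) 1) ∨
      ∃ σ < 2, HolomorphicRight q deg (pair π.A (dualParams π.A)) σ) :
    ∀ v, ∀ a ∈ π.A v, ‖a‖ = 1 := by
  obtain ⟨m, h0, hle, hv, -⟩ := exponent hq deg hdeg G hn π
  have half : π.c m < 1 / 2 := by
    rcases h with ⟨χ, hχ, N, D, hL, hN⟩ | ⟨σ, hσ, hhol⟩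
    · obtain ⟨u, hu, hu0⟩ := zero_of_twist G π.A π.τ π.c hq π.decomp χ hχ.2 N D hL m
      by_contra hcon
      push Not at hcon
      refine hN u ?_ hu0
      rw [hu]
      exact Real.rpow_le_rpow_of_exponent_le hq.le (by linarith)
    · have := (square_iff G π.A π.τ π.c hq π.hermitian π.decomp m (fun i => (hle i).1) σ).1 hhol
      linarith
  have hint : ∃ l : ℤ, π.c m = l / 2 := by
    have hcard : 0 < (U.e m).card := by
      rw [U.card_e]
      exact G.dim_pos _
    obtain ⟨x, hx⟩ := Multiset.card_pos_iff_exists_mem.1 hcard
    have hmem : x + π.c m ∈ U.E := by
      rw [U.decomp, Multiset.mem_sum]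
      exact ⟨m, Finset.mem_univ m, Multiset.mem_map.2 ⟨x, hx, rfl⟩⟩
    obtain ⟨l, hl⟩ := hU _ hmem
    obtain ⟨l', hl'⟩ := U.half m x hx
    refine ⟨l - l', ?_⟩
    push_cast
    linarith
  obtain ⟨l, hl⟩ := hint
  have hκ : π.c m = 0 := by
    have h1 : (l : ℝ) < 1 := by linarith
    have h2 : (0 : ℝ) ≤ l := by linarith
    have h3 : l < 1 := by exact_mod_cast h1
    have h4 : 0 ≤ l := by exact_mod_cast h2
    have h5 : l = 0 := by omega
    rw [hl, h5]
    simp
  intro v a ha
  obtain ⟨h1, h2⟩ := (hv v).1 a ha
  rw [hκ, zero_mul, Real.rpow_zero] at h2
  rw [hκ, zero_mul, neg_zero, Real.rpow_zero] at h1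
  exact le_antisymm h2 h1

end Pool.Agent.Results.MP_eadad4_nt.HalfIntegralPlace
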