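import Pool.Agent.W2helper62.RF.Base

/-!
# The Ramanujan conjecture over function fields and the poles of one L-function

Notation as in `Pool.Agent.W2helper62.RF.Base`: `π` is a unitary cuspidal representation of a
reductive group `G` over a global function field, `r` a representation of dimension `n` of the L-group,
`α_{1,v}, ..., α_{n,v}` are the eigenvalues of the Satake parameter of `π_v` in `r`, for the places
`v` outside of a finite set `S`. No functoriality is assumed.

There is a number `κ ≥ 0` such that for EVERY place `v` outside of `S` the largest absolute value of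
the `α_{j,v}` is exactly `q_v ^ κ` (and the smallest at least `q_v ^ (-κ)`), and the L-function
`L(s, π, r ⊗ r^∨)` is holomorphic in `Re s > σ` if and only if `σ ≥ 1 + 2 κ`.

So the Ramanujan conjecture for `π` (outside of `S`) is equivalent to the holomorphy of this single
L-function in `Re s > 1`, and bounds towards Ramanujan are the same as half-planes of holomorphy.
In particular it follows if the L-functions `L(s, π, ρ)` are holomorphic in `Re s > 1` for the
irreducible constituents `ρ` of `r ⊗ r^∨` (last part of the theorem); for `G_2` these have the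
dimensions 1, 7, 14, 27, for `F_4` 1, 26, 52, 273, 324, for `E_6` 1, 78, 650, for `E_7` 1, 133, 1463,
1539, for `E_8` 1, 248, 3875, 27000, 30380. Over number fields one needs the L-functions of
arbitrarily high powers of `r ⊗ r^∨`.
-/

set_option autoImplicit false

namespace Pool.Agent.Results.MP_eadad4_nt.PolesOfSquare

open Polynomial Filter Topology Pool.Agent.W2helper62.RF

/-- **The largest absolute value of the Satake parameters, at all places, is given by the rightmost
poles of the L-function of `r ⊗ r^∨`.** -/
theorem result {P : Type} {q : ℝ} (hq : 1 < q) [Nonempty P] (deg : P → ℕ) (hdeg : ∀ v, 0 < deg v)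
    (G : CuspidalGL q P deg) {n : ℕ} (hn : 0 < n) (π : Parameters G n) :
    ∃ κ : ℝ, 0 ≤ κ ∧
      (∀ v, (∀ a ∈ π.A v, q ^ (-(κ * deg v)) ≤ ‖a‖ ∧ ‖a‖ ≤ q ^ (κ * deg v)) ∧
        ∃ a ∈ π.A v, ‖a‖ = q ^ (κ * deg v)) ∧
      (∀ σ, HolomorphicRight q deg (pair π.A (dualParams π.A)) σ ↔ 1 + 2 * κ ≤ σ) ∧
      ∀ (m : ℕ) (B : Fin m → P → Multiset ℂ) (σ : ℝ),
        (∀ v, pair π.A (dualParams π.A) v = ∑ j, B j v) →
          (∀ j, HolomorphicRight q deg (B j) σ) → 1 + 2 * κ ≤ σ := by
  obtain ⟨m, h0, hle, hv, -⟩ := exponent hq deg hdeg G hn π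
  have hsq := square_iff G π.A π.τ π.c hq π.hermitian π.decomp m (fun i => (hle i).1)
  refine ⟨π.c m, h0, hv, hsq, fun l B σ hB hσ => (hsq σ).1 ?_⟩
  choose N D hL hD using hσ
  refine ⟨_, _, isL_sum deg _ B (fun _ => 1) (fun v => ?_) N D hL, fun u hu => ?_⟩
  · rw [hB v]
    simp
  · rw [Polynomial.eval_prod]
    refine Finset.prod_ne_zero_iff.2 fun j _ => ?_
    rw [Polynomial.eval_comp, Polynomial.eval_mul, Polynomial.eval_C, Polynomial.eval_X, one_mul]
    exact hD j u hu

end Pool.Agent.Results.MP_eadad4_nt.PolesOfSquare
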