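import Pool.Agent.W2helper62.RF.Base

/-!
# The Ramanujan conjecture over function fields and twists by cuspidal representations of `GL_m`

Notation as in `Pool.Agent.W2helper62.RF.Base`: `π` is a unitary cuspidal representation of a
reductive group `G` over a global function field, `r` a representation of dimension `n` of the L-group,
`α_{1,v}, ..., α_{n,v}` are the eigenvalues of the Satake parameter of `π_v` in `r`, for the places
`v` outside of a finite set `S`, `σ` is the Galois representation attached to `π` by V. Lafforgue and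
`τ_i |·| ^ (-c_i)` are the constituents of `r ∘ σ`, with unitary cuspidal representations `τ_i`. No
functoriality is assumed.

Let `L(s, π × τ, r)` be holomorphic in `Re s > 1` for all unitary cuspidal representations `τ` of the
groups `GL_m` with `m ≤ M` (unramified outside of `S`).

* If `M ≥ [n / 2]` then the Ramanujan conjecture holds for `π` outside of `S`, and conversely.
* If one highly ramified twist `L(s, π × χ, r)` has no zeros in `Re s ≥ 1` (which is known for globally
  generic `π` and the pairs `(G, r)` of the Langlands-Shahidi method, like `E_6`, `n = 27` and `E_7`,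
  `n = 56`) then for every `M` all constituents of dimension at most `M` are tempered: `c_i = 0`.
-/

set_option autoImplicit false

namespace Pool.Agent.Results.MP_eadad4_nt.TwistsUpToHalf

open Polynomial Filter Topology Pool.Agent.W2helper62.RF

/-- **Twists by cuspidal representations of `GL_m`, `m ≤ M`, and constituents of dimension at most
`M`.** -/
theorem result {P : Type} {q : ℝ} (hq : 1 < q) [Nonempty P] (deg : P → ℕ) (hdeg : ∀ v, 0 < deg v)
    (G : CuspidalGL q P deg) {n : ℕ} (hn : 0 < n) (π : Parameters G n) :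
    ((∀ τ, G.dim τ ≤ n / 2 → HolomorphicRight q deg (pair π.A (G.satake τ)) 1) ↔
      ∀ v, ∀ a ∈ π.A v, ‖a‖ = 1) ∧
    ∀ M, (∀ τ, G.dim τ ≤ M → HolomorphicRight q deg (pair π.A (G.satake τ)) 1) →
      (∃ χ, HighlyRamified π χ ∧ NoZerosFrom q deg (pair π.A (G.satake χ)) 1) →
        ∀ i, G.dim (π.τ i) ≤ M → π.c i = 0 := by
  obtain ⟨m, h0, hle, hv, -⟩ := exponent hq deg hdeg G hn π
  have hq0 : (0 : ℝ) < q := by linarith
  refine ⟨⟨fun hM v a ha => ?_, fun hT τ _ => ?_⟩, fun M hM hχ i hi => ?_⟩
  · have hκ : π.c m = 0 := by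
      by_contra hne
      have hpos : 0 < π.c m := lt_of_le_of_ne h0 (Ne.symm hne)
      have h2 := two_mul_dim_le G π.A π.τ π.c hq hdeg π.card_A π.hermitian π.decomp m hpos.ne'
      obtain ⟨j, hj⟩ := pole_lemma G π.A π.τ π.c hq π.decomp m hpos
        (hM _ (by rw [G.dim_dual]; omega))
      have := (hle j).1
      linarith
    obtain ⟨h1, h2⟩ := (hv v).1 a ha
    rw [hκ, zero_mul, Real.rpow_zero] at h2
    rw [hκ, zero_mul, neg_zero, Real.rpow_zero] at h1
    exact le_antisymm h2 h1
  · obtain ⟨v⟩ := ‹Nonempty P›
    obtain ⟨a, ha, hna⟩ := (hv v).2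
    have hd : (0 : ℝ) < deg v := by exact_mod_cast hdeg v
    have hκ : π.c m = 0 := by
      rw [hT v a ha] at hna
      have h2 : q ^ (π.c m * deg v) = q ^ (0 : ℝ) := by rw [← hna, Real.rpow_zero]
      have h3 := (Real.rpow_right_inj hq0 hq.ne').1 h2
      exact (mul_eq_zero.1 h3).resolve_right hd.ne'
    have hc : ∀ i, π.c i = 0 := fun i => by linarith [(hle i).1, (hle i).2]
    refine ⟨_, _, isL_sum deg _ _ _
      (fun v => pair_sum deg π.A (G.satake τ) (fun i => G.satake (π.τ i)) _ v (π.decomp v))
      (fun i => G.num (π.τ i) τ) (fun i => G.den (π.τ i) τ) (fun i => G.isL _ _),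
      fun u hu => ?_⟩
    rw [Polynomial.eval_prod]
    refine Finset.prod_ne_zero_iff.2 fun i _ h => ?_
    rw [Polynomial.eval_comp, Polynomial.eval_mul, Polynomial.eval_C, Polynomial.eval_X, hc i,
      Real.rpow_zero, Complex.ofReal_one, one_mul] at h
    have h1 : q ^ (-1 : ℝ) < 1 := Real.rpow_lt_one_of_one_lt_of_neg hq (by norm_num)
    have := G.poles _ _ u (hu.trans h1) h
    linarith
  · obtain ⟨χ, hχ, N, D, hL, hN⟩ := hχ
    have half : π.c m < 1 / 2 := by
      obtain ⟨u, hu, hu0⟩ := zero_of_twist G π.A π.τ π.c hq π.decomp χ hχ.2 N D hL m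
      by_contra hcon
      push Not at hcon
      refine hN u ?_ hu0
      rw [hu]
      exact Real.rpow_le_rpow_of_exponent_le hq.le (by linarith)
    have hol := hM (G.dual (π.τ i)) (by rw [G.dim_dual]; exact hi)
    rcases lt_trichotomy (π.c i) 0 with hc | hc | hc
    · obtain ⟨j, hj⟩ := pole_lemma G π.A π.τ (fun i => -π.c i) hq
        (opposite G π.A π.τ π.c hq π.hermitian π.decomp) i (by simpa using hc) hol
      have := (hle j).2
      linarith
    · exact hc
    · obtain ⟨j, hj⟩ := pole_lemma G π.A π.τ π.c hq π.decomp i hc hol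
      have := (hle j).1
      linarith

end Pool.Agent.Results.MP_eadad4_nt.TwistsUpToHalf
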