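import Pool.Agent.W2helper62.RF.Base

/-!
# The Ramanujan conjecture over function fields and the zeros of ramified twists

Notation as in `Pool.Agent.W2helper62.RF.Base`: `π` is a unitary cuspidal representation of a
reductive group `G` over a global function field, `r` a representation of dimension `n` of the L-group,
`α_{1,v}, ..., α_{n,v}` are the eigenvalues of the Satake parameter of `π_v` in `r`, for the places
`v` outside of a finite set `S`. No functoriality is assumed.

There is a number `κ ≥ 0` such that

1. for every place `v` the largest absolute value of the `α_{j,v}` is exactly `q_v ^ κ`, and the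
   smallest is at least `q_v ^ (-κ)`; so the Ramanujan conjecture for `π` (outside of `S`) is `κ = 0`;
2. the rightmost zeros of the twisted L-function `L(s, π × χ, r)` have the real part `1/2 + κ`, for
   every highly ramified character `χ`: so the Ramanujan conjecture for `π` is equivalent to the
   Riemann hypothesis for one such twist, and if one of them has no zeros in `Re s ≥ 1` then `κ < 1/2`,
   that is `q_v ^ (-1/2) < |α_{j,v}| < q_v ^ (1/2)` for all `j` and `v`;
3. if `χ_m` is a sequence of characters with conductors `f_m` tending to infinity at one place, then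
   the number of the zeros of `L(s, π × χ_m, r)` with real part `1/2 + c` is `N(c) f_m + O(1)`, for
   every `c`, where `N(c)` is the number of the `j` with `|α_{j,v}| = q_v ^ c` for ANY place `v`; and
   the Ramanujan conjecture for `π` holds if (and only if) for infinitely many `m` the proportion of
   the zeros which are not on the critical line is at most `2/n - δ`, with a fixed `δ > 0`.

Application of 2. Let `G` be the split adjoint group of type `E_6` or `E_7`, `r` the representation of
dimension 27 or 56 of the dual group and `π` globally generic. By the Langlands-Shahidi method (for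
the groups `E_7` and `E_8`, with `G` as the quotient of a maximal Levi subgroup by its centre) the
`L(s, π × χ, r)` have no zeros in `Re s ≥ 1` for suitable highly ramified `χ`. So
`q_v ^ (-1/2) < |α_{j,v}| < q_v ^ (1/2)` for all `j` and all unramified `v`. In these cases no
functorial lift to `GL_n` is known; the bound from the Langlands-Shahidi method alone is
`q_v ^ (-1) < |α_{j,v}| < q_v`. The same holds for all pairs `(G, r)` of this method.
-/

set_option autoImplicit false

namespace Pool.Agent.Results.MP_eadad4_nt.ZerosOfTwists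

open Polynomial Filter Topology Pool.Agent.W2helper62.RF

/-- **The absolute values of the Satake parameters at all places are given by the real parts of the
zeros of the ramified twists.** -/
theorem result {P : Type} {q : ℝ} (hq : 1 < q) [Nonempty P] (deg : P → ℕ) (hdeg : ∀ v, 0 < deg v)
    (G : CuspidalGL q P deg) {n : ℕ} (hn : 0 < n) (π : Parameters G n) :
    ∃ κ : ℝ, 0 ≤ κ ∧
      (∀ v, (∀ a ∈ π.A v, q ^ (-(κ * deg v)) ≤ ‖a‖ ∧ ‖a‖ ≤ q ^ (κ * deg v)) ∧
        ∃ a ∈ π.A v, ‖a‖ = q ^ (κ * deg v)) ∧
      (∀ χ, HighlyRamified π χ →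
        (∀ σ, NoZerosRight q deg (pair π.A (G.satake χ)) σ ↔ 1 / 2 + κ ≤ σ) ∧
        (NoZerosFrom q deg (pair π.A (G.satake χ)) 1 → κ < 1 / 2)) ∧
      ∀ F : RamifiedSequence π,
        (∃ C' : ℤ, ∀ m N, IsL deg (pair π.A (G.satake (F.χ m))) N 1 → ∀ v c,
          |(zerosOn q N c : ℤ) - paramsOn q deg π.A v c * F.f m| ≤ C') ∧
        (κ = 0 ↔ ∃ δ > 0, ∃ᶠ m in atTop, ∃ N, IsL deg (pair π.A (G.satake (F.χ m))) N 1 ∧
          (N.natDegree : ℝ) - zerosOn q N 0 ≤ (2 / n - δ) * N.natDegree) := by
  obtain ⟨m, h0, hle, hv, hp⟩ := exponent hq deg hdeg G hn π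
  obtain ⟨v₀⟩ := ‹Nonempty P›
  refine ⟨π.c m, h0, hv, fun χ hχ => ⟨fun σ => ⟨fun hσ => ?_, fun hσ =>
    no_zeros G π.A π.τ π.c hq π.decomp χ _ σ (fun i => (hle i).1) hσ⟩, fun hz => ?_⟩, fun F =>
    ⟨⟨2 * F.C * π.k, fun m N hN => (zeros_count hq hdeg G π F m N hN).1⟩,
      proportion hq hdeg G hn π F v₀ _ h0 hle (hp v₀).1 (hp v₀).2⟩⟩
  · obtain ⟨N, D, hL, hN⟩ := hσ
    obtain ⟨u, hu, hu0⟩ := zero_of_twist G π.A π.τ π.c hq π.decomp χ hχ.2 N D hL m
    by_contra hcon
    push Not at hcon
    refine hN u ?_ hu0
    rw [hu]
    exact Real.rpow_lt_rpow_of_exponent_lt hq (by linarith)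
  · obtain ⟨N, D, hL, hN⟩ := hz
    obtain ⟨u, hu, hu0⟩ := zero_of_twist G π.A π.τ π.c hq π.decomp χ hχ.2 N D hL m
    by_contra hcon
    push Not at hcon
    refine hN u ?_ hu0
    rw [hu]
    exact Real.rpow_le_rpow_of_exponent_le hq.le (by linarith)

end Pool.Agent.Results.MP_eadad4_nt.ZerosOfTwists
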